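import Pool.Agent.Lib.MP_f73e8c_lc.Mixed

/-!
Strips of height seven: planarity, star instances, walks.
-/

set_option autoImplicit false

namespace Pool.Agent.Lib.MP_f73e8c_lc.Star

open Pool.Agent.Lib.MP_f73e8c_lc

/-- the arc between `(t, p)` and `(t + 1, q)`, forwards or backwards -/
def arcOf (t : ℕ) (a : ℕ × ℕ × Bool) : ℕ × ℕ :=
  bif a.2.2 then (7 * t + a.1, 7 * (t + 1) + a.2.1) else (7 * (t + 1) + a.2.1, 7 * t + a.1)

theorem planar_strip (V : List ℕ) (E T F : List (ℕ × ℕ)) (G : ℕ → List (ℕ × ℕ × Bool))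
    (hE : ∀ e ∈ E, ∃ t, ∃ a ∈ G t, e = arcOf t a)
    (h7 : ∀ t, ∀ a ∈ G t, a.1 < 7 ∧ a.2.1 < 7)
    (hX : ∀ t, ∀ a ∈ G t, ∀ b ∈ G t, (a.1 < b.1 → a.2.1 ≤ b.2.1) ∧
      (a.1 = b.1 → a.2.1 = b.2.1 → a.2.2 = b.2.2)) : Planar (V, E, T, F) := by
  let pos : ℕ → ℝ × ℝ := fun v => (((v / 7 : ℕ) : ℝ), ((v % 7 : ℕ) : ℝ))
  let γ : ℕ × ℕ → ℝ → ℝ × ℝ := fun e t =>
    ((pos e.1).1 + t * ((pos e.2).1 - (pos e.1).1), (pos e.1).2 + t * ((pos e.2).2 - (pos e.1).2))
  have hp : ∀ t p, p < 7 → pos (7 * t + p) = ((t : ℝ), (p : ℝ)) := by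
    intro t p h
    have h1 : (7 * t + p) / 7 = t := by omega
    have h2 : (7 * t + p) % 7 = p := by omega
    simp only [pos, h1, h2]
  have hγ : ∀ t, ∀ a ∈ G t, ∀ s : ℝ, γ (arcOf t a) s =
      ((t : ℝ) + (bif a.2.2 then s else 1 - s),
        (a.1 : ℝ) + (bif a.2.2 then s else 1 - s) * ((a.2.1 : ℝ) - a.1)) := by
    rintro t ⟨p, q, f⟩ ha s
    obtain ⟨h1, h2⟩ := h7 t _ ha
    cases f
    · simp only [γ, arcOf, cond_false, hp _ _ h1, hp _ _ h2]
      push_cast
      refine Prod.ext ?_ ?_ <;> simp only <;> ring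
    · simp only [γ, arcOf, cond_true, hp _ _ h1, hp _ _ h2]
      push_cast
      refine Prod.ext ?_ ?_ <;> simp only <;> ring
  have hI : ∀ (f : Bool) (s : ℝ), s ∈ Set.Ioo (0 : ℝ) 1 →
      (bif f then s else 1 - s) ∈ Set.Ioo (0 : ℝ) 1 := by
    intro f s hs
    cases f
    · exact ⟨by simp only [cond_false]; linarith [hs.2], by simp only [cond_false]; linarith [hs.1]⟩
    · exact hs
  refine ⟨pos, γ, ?_, ?_, ?_⟩
  · intro v _ w _ h
    simp only [pos, Prod.mk.injEq, Nat.cast_inj] at h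
    omega
  · intro e he
    obtain ⟨t, a, ha, rfl⟩ := hE e he
    refine ⟨by fun_prop, ?_, by simp [γ], by simp [γ], ?_⟩
    · intro s _ s' _ h
      rw [hγ t a ha, hγ t a ha] at h
      have := congrArg Prod.fst h
      cases hf : a.2.2 <;> simp only [hf, cond_true, cond_false] at this <;> linarith
    · intro s hs v _
      rw [hγ t a ha]
      exact fun h => not_int (hI _ s hs) (congrArg Prod.fst h)
  · intro e he e' he' hne s hs s' hs'
    obtain ⟨t, a, ha, rfl⟩ := hE e he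
    obtain ⟨t', b, hb, rfl⟩ := hE e' he'
    rw [hγ t a ha, hγ t' b hb]
    have h1 := hI a.2.2 s hs
    have h2 := hI b.2.2 s' hs'
    generalize (bif a.2.2 then s else 1 - s) = u at h1
    generalize (bif b.2.2 then s' else 1 - s') = u' at h2
    intro h
    rw [Prod.mk.injEq] at h
    obtain rfl : t = t' := eq_of_frac h1 h2 h.1
    obtain rfl : u = u' := by linarith [h.1]
    have h3 := h.2
    rcases lt_trichotomy a.1 b.1 with c | c | c
    · have d1 : (a.1 : ℝ) < b.1 := by exact_mod_cast c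
      have d2 : (a.2.1 : ℝ) ≤ b.2.1 := by exact_mod_cast (hX t a ha b hb).1 c
      nlinarith [h1.1, h1.2]
    · have d1 : (a.2.1 : ℝ) = b.2.1 := by
        rw [c] at h3
        have : u * ((a.2.1 : ℝ) - b.2.1) = 0 := by linarith
        rcases mul_eq_zero.1 this with d | d
        · exact absurd d h1.1.ne'
        · linarith
      have d2 : a.2.1 = b.2.1 := by exact_mod_cast d1
      exact hne (by rw [show a = b from Prod.ext c (Prod.ext d2 ((hX t a ha b hb).2 c d2))])
    · have d1 : (b.1 : ℝ) < a.1 := by exact_mod_cast c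
      have d2 : (b.2.1 : ℝ) ≤ a.2.1 := by exact_mod_cast (hX t b hb a ha).1 c
      nlinarith [h1.1, h1.2]

/-- the pairs `(0, i)` for `1 ≤ i ≤ m` -/
def starF (m : ℕ) : List (ℕ × ℕ) := (List.range m).map fun i => (0, i + 1)

theorem adj_star (V : List ℕ) (E T : List (ℕ × ℕ)) (t0 : ℕ × ℕ)
    (i j : Fin (t0 :: T).length) : (conflictGraph (V, E, t0 :: T, starF T.length)).Adj i j ↔
      i ≠ j ∧ ((i : ℕ) = 0 ∨ (j : ℕ) = 0) := by
  unfold conflictGraph
  rw [SimpleGraph.fromRel_adj]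
  refine and_congr_right fun hne => ?_
  have h1 : (i : ℕ) ≠ j := fun h => hne (Fin.ext h)
  have hi : (i : ℕ) < T.length + 1 := i.2
  have hj : (j : ℕ) < T.length + 1 := j.2
  simp only [starF, List.mem_map, List.mem_range, Prod.mk.injEq]
  constructor
  · rintro (⟨a, _, h, _⟩ | ⟨a, _, h, _⟩)
    · exact Or.inl h.symm
    · exact Or.inr h.symm
  · rintro (h | h)
    · exact Or.inl ⟨j - 1, by omega, h.symm, by omega⟩
    · exact Or.inr ⟨i - 1, by omega, h.symm, by omega⟩

theorem solvable_star (V : List ℕ) (E T : List (ℕ × ℕ)) (t0 : ℕ × ℕ) :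
    Solvable (V, E, t0 :: T, starF T.length) ↔ ∃ P, IsDipath E t0.1 t0.2 P ∧
      ∀ t ∈ T, ∃ Q, IsDipath E t.1 t.2 Q ∧ List.Disjoint P Q := by
  constructor
  · rintro ⟨P, h1, h2⟩
    refine ⟨P ⟨0, by simp⟩, h1 ⟨0, by simp⟩, fun t ht => ?_⟩
    obtain ⟨i, hi, rfl⟩ := List.getElem_of_mem ht
    refine ⟨P ⟨i + 1, by simpa using hi⟩, h1 ⟨i + 1, by simpa using hi⟩, h2 _ _ ?_⟩
    exact (adj_star V E T t0 _ _).2 ⟨fun h => by simpa using congrArg Fin.val h, Or.inl rfl⟩
  · rintro ⟨P, h1, h2⟩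
    choose Q hQ using h2
    refine ⟨fun i => Fin.cases P (fun j : Fin T.length => Q T[j] (List.getElem_mem _)) i,
      fun i => ?_, fun i j hij => ?_⟩
    · refine Fin.cases ?_ (fun j => ?_) i
      · exact h1
      · exact (hQ _ _).1
    · rw [adj_star] at hij
      obtain ⟨hne, h0⟩ := hij
      revert hne h0
      refine Fin.cases ?_ (fun a => ?_) i <;> refine Fin.cases ?_ (fun b => ?_) j
      · intro h; exact absurd rfl h
      · intro _ _; exact (hQ _ _).2
      · intro _ _; exact (hQ _ _).2.symm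
      · intro _ h; simp at h

theorem exists_dipath {E : List (ℕ × ℕ)} {P : List ℕ} {r s : ℕ} (hr : r ∉ P)
    (h : Relation.ReflTransGen (fun a b => (a, b) ∈ E ∧ b ∉ P) r s) :
    ∃ Q, IsDipath E r s Q ∧ List.Disjoint P Q := by
  induction h using Relation.ReflTransGen.head_induction_on with
  | refl => exact ⟨[s], ⟨rfl, rfl, by simp, by simp⟩, by simpa using hr⟩
  | @head a b hab _ ih =>
    obtain ⟨Q, ⟨h1, h2, h3, h4⟩, h5⟩ := ih hab.2
    by_cases ha : a ∈ Q
    · obtain ⟨l1, l2, rfl⟩ := List.append_of_mem ha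
      refine ⟨a :: l2, ⟨rfl, ?_, h3.right_of_append, h4.of_append_right⟩,
        fun x hx hx' => h5 hx (List.mem_append_right _ hx')⟩
      rw [List.getLast?_append] at h2
      simpa [List.getLast?_cons] using h2
    · cases Q with
      | nil => simp at h1
      | cons c Q =>
        obtain rfl : c = b := by simpa using h1
        refine ⟨a :: c :: Q, ⟨rfl, by rwa [List.getLast?_cons_cons],
          List.isChain_cons_cons.2 ⟨hab.1, h3⟩, List.nodup_cons.2 ⟨ha, h4⟩⟩, fun x hx hx' => ?_⟩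
        rcases List.mem_cons.1 hx' with rfl | hx'
        · exact hr hx
        · exact h5 hx hx'

theorem chain_inv {E : List (ℕ × ℕ)} (A B : ℕ → Prop)
    (hs : ∀ u v, (u, v) ∈ E → A u → A v → B u → B v) : ∀ (p : List ℕ) (r s : ℕ),
    p.head? = some r → p.getLast? = some s → p.IsChain (fun u v => (u, v) ∈ E) →
    (∀ v ∈ p, A v) → B r → B s := by
  intro p
  induction p with
  | nil => intro r s h; simp at h
  | cons a p ih =>
    intro r s h1 h2 h3 h4 h5
    obtain rfl : a = r := by simpa using h1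
    cases p with
    | nil =>
      obtain rfl : a = s := by simpa using h2
      exact h5
    | cons b p =>
      rw [List.isChain_cons_cons] at h3
      rw [List.getLast?_cons_cons] at h2
      exact ih b s rfl h2 h3.2 (fun v hv => h4 v (List.mem_cons_of_mem _ hv))
        (hs a b h3.1 (h4 a (by simp)) (h4 b (by simp)) h5)

theorem chain_level {E : List (ℕ × ℕ)} (A : ℕ → Prop)
    (hs : ∀ u v, (u, v) ∈ E → A u → A v → v / 7 = u / 7 + 1) : ∀ (p : List ℕ) (r s : ℕ),
    p.head? = some r → p.getLast? = some s → p.IsChain (fun u v => (u, v) ∈ E) →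
    (∀ v ∈ p, A v) → ∃ y : ℕ → ℕ, r / 7 ≤ s / 7 ∧ y (r / 7) = r ∧
      (∀ t, r / 7 ≤ t → t ≤ s / 7 → y t ∈ p ∧ y t / 7 = t) ∧
      ∀ t, r / 7 ≤ t → t < s / 7 → (y t, y (t + 1)) ∈ E := by
  intro p
  induction p with
  | nil => intro r s h; simp at h
  | cons a p ih =>
    intro r s h1 h2 h3 h4
    obtain rfl : a = r := by simpa using h1
    cases p with
    | nil =>
      obtain rfl : a = s := by simpa using h2
      exact ⟨fun _ => a, le_rfl, rfl, fun t a1 a2 => ⟨by simp, le_antisymm a1 a2⟩,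
        fun t a1 a2 => by omega⟩
    | cons b p =>
      rw [List.isChain_cons_cons] at h3
      rw [List.getLast?_cons_cons] at h2
      obtain ⟨y, g1, g2, g3, g4⟩ := ih b s rfl h2 h3.2 (fun v hv => h4 v (List.mem_cons_of_mem _ hv))
      have hb := hs a b h3.1 (h4 a (by simp)) (h4 b (by simp))
      refine ⟨fun t => if t = a / 7 then a else y t, by omega, by simp, fun t a1 a2 => ?_,
        fun t a1 a2 => ?_⟩
      · simp only
        by_cases ht : t = a / 7
        · rw [if_pos ht]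
          exact ⟨List.mem_cons_self, ht.symm⟩
        · rw [if_neg ht]
          exact ⟨List.mem_cons_of_mem _ (g3 t (by omega) a2).1, (g3 t (by omega) a2).2⟩
      · simp only
        rw [if_neg (show ¬ t + 1 = a / 7 by omega)]
        by_cases ht : t = a / 7
        · rw [if_pos ht, ht, ← hb, g2]
          exact h3.1
        · rw [if_neg ht]
          exact g4 t (by omega) a2

end Pool.Agent.Lib.MP_f73e8c_lc.Star
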