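import Pool.Agent.Lib.MP_f73e8c_lc.Star.Red

/-!
Completeness of the star reduction.
-/

set_option autoImplicit false

namespace Pool.Agent.Lib.MP_f73e8c_lc.Star

open Pool.Agent.Lib.MP_f73e8c_lc Pool.Agent.Shared.CookLevin

variable {ψ : E3 ℕ} {n : ℕ}

def cpath (ψ : E3 ℕ) (n : ℕ) (σ : ℕ → Bool) : List ℕ :=
  (List.range (top ψ n + 1)).map fun t => 7 * t + xP (t % 3) (σ (t / 3))

theorem xP_lt (t : ℕ) (b : Bool) : xP (t % 3) b < 7 :=
  (row_ne (t % 3) (by omega) true b).2.2.2.2.1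

theorem not_mem_cpath {σ : ℕ → Bool} {t p : ℕ} (hp : p < 7) (h : p ≠ xP (t % 3) (σ (t / 3))) :
    7 * t + p ∉ cpath ψ n σ := by
  intro hm
  obtain ⟨s, _, e⟩ := List.mem_map.1 hm
  have := xP_lt s (σ (s / 3))
  obtain rfl : s = t := by omega
  exact h (by omega)

theorem cpath_dipath (σ : ℕ → Bool) :
    IsDipath (arcs ψ n) 3 (7 * top ψ n + 3) (cpath ψ n σ) := by
  refine ⟨?_, ?_, ?_, ?_⟩
  · simp [cpath, List.range_succ_eq_map, xP]
  · have e : top ψ n % 3 = 0 := by unfold top; omega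
    simp [cpath, List.range_succ, e, xP]
  · unfold cpath
    rw [List.isChain_map, List.isChain_range_succ]
    intro t ht
    have hk := kind_mod (ψ := ψ) (n := n) t
    have := pat_centre _ (kind_lt (ψ := ψ) (n := n) t) (σ (t / 3)) (σ ((t + 1) / 3)) (by
      by_cases h : t % 3 = 1
      · right; rw [show (t + 1) / 3 = t / 3 by omega]
      · left; omega)
    refine mem_arcs.2 ⟨t, ht, _, this, ?_⟩
    rw [show (kind ψ n t + 1) % 3 = (t + 1) % 3 by omega, hk]
    rfl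
  · refine List.nodup_range.map fun a b h => ?_
    have := xP_lt a (σ (a / 3))
    have := xP_lt b (σ (b / 3))
    omega

/-- steps avoiding the centre path -/
def Rch (ψ : E3 ℕ) (n : ℕ) (σ : ℕ → Bool) (t p t' p' : ℕ) : Prop :=
  Relation.ReflTransGen (fun a b => (a, b) ∈ arcs ψ n ∧ b ∉ cpath ψ n σ) (7 * t + p) (7 * t' + p')

theorem Rch.fwd {σ : ℕ → Bool} {t0 p0 t p q : ℕ} (h : Rch ψ n σ t0 p0 t p) (ht : t < top ψ n)
    (ha : (p, q, true) ∈ pat (kind ψ n t)) (hq : q ≠ xP ((t + 1) % 3) (σ ((t + 1) / 3))) :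
    Rch ψ n σ t0 p0 (t + 1) q :=
  Relation.ReflTransGen.tail h ⟨mem_arcs.2 ⟨t, ht, _, ha, rfl⟩,
    not_mem_cpath (pat_lt _ (kind_lt t) _ ha).2 hq⟩

theorem Rch.bwd {σ : ℕ → Bool} {t0 p0 t p q : ℕ} (h : Rch ψ n σ t0 p0 (t + 1) q)
    (ht : t < top ψ n) (ha : (p, q, false) ∈ pat (kind ψ n t))
    (hp : p ≠ xP (t % 3) (σ (t / 3))) : Rch ψ n σ t0 p0 t p :=
  Relation.ReflTransGen.tail h ⟨mem_arcs.2 ⟨t, ht, _, ha, rfl⟩,
    not_mem_cpath (pat_lt _ (kind_lt t) _ ha).1 hp⟩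

theorem ne3 (t : ℕ) (s b : Bool) : row s 3 ≠ xP (t % 3) b := (row_ne _ (by omega) s b).1
theorem ne2 (t : ℕ) (s b : Bool) : row s 2 ≠ xP (t % 3) b := (row_ne _ (by omega) s b).2.1
theorem ne1 (t : ℕ) {s b : Bool} (h : s ≠ b) : row s 1 ≠ xP (t % 3) b :=
  (row_ne _ (by omega) s b).2.2.1 h
theorem ne0 {t : ℕ} (b : Bool) (h : t % 3 ≠ 0) : 3 ≠ xP (t % 3) b :=
  (row_ne _ (by omega) b b).2.2.2.1 h

theorem corridor {σ : ℕ → Bool} {u : ℕ} (hu : u < n) {s : Bool} (hs : s ≠ σ u) {t : ℕ}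
    (h1 : 3 * u + 3 ≤ t) (h2 : t ≤ top ψ n) : Rch ψ n σ (3 * u + 1) 3 t (row s 3) := by
  induction t, h1 using Nat.le_induction with
  | base =>
    have f := pat_facts s s
    have a0 : Rch ψ n σ (3 * u + 1) 3 (3 * u + 1) 3 := Relation.ReflTransGen.refl
    have a1 := a0.fwd (q := row s 1) (by omega)
      (by rw [kind_lo (by omega), show (3 * u + 1) % 3 = 1 by omega]; exact f.1)
      (ne1 _ (by rwa [show (3 * u + 1 + 1) / 3 = u by omega]))
    exact a1.fwd (q := row s 3) (by omega)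
      (by rw [kind_lo (by omega), show (3 * u + 1 + 1) % 3 = 2 by omega]; exact f.2.1) (ne3 _ _ _)
  | succ t h1 ih => exact (ih (by omega)).fwd h2 (pat_corr _ (kind_lt t) s) (ne3 _ _ _)

theorem complete (h : Good ψ n) (hpat : ∀ C ∈ ψ, C.1.1 = !C.2.1.1 ∧ C.2.2.1 = C.2.1.1)
    (τ : ℕ → Bool) (h0 : τ 0 = true) (h1 : τ 1 = false)
    (hτ : ∀ C ∈ ψ, τ C.1.2 = C.1.1 ∨ τ C.2.1.2 = C.2.1.1 ∨ τ C.2.2.2 = C.2.2.1) :
    Solvable (sinst ψ n) := by
  let σ : ℕ → Bool := fun d => τ (var ψ n d)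
  have hσ : ∀ u < n, σ u = τ u := fun u hu => by simp only [σ, var, if_pos hu]
  have h2n := h.two
  refine (solvable_star _ _ _ _).2 ⟨cpath ψ n σ, cpath_dipath σ, fun t ht => ?_⟩
  rcases mem_leaves.1 ht with ⟨i, hi, rfl⟩ | ⟨v, hv, hf, rfl⟩
  · have hv := var_lt h hi
    have hσi : σ (n + i) = σ (var ψ n (n + i)) := (hσ _ hv).symm
    refine exists_dipath (not_mem_cpath (by omega) (ne0 _ (by omega))) ?_
    change Rch ψ n σ _ _ _ _
    obtain ⟨j, r, hr, rfl⟩ : ∃ j r, r < 3 ∧ i = 3 * j + r := ⟨i / 3, i % 3, by omega, by omega⟩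
    have hj : j < ψ.length := by omega
    have htop : 3 * n + 9 * j + 9 ≤ top ψ n := by unfold top; omega
    obtain ⟨v0, v1, v2⟩ := var_cl (ψ := ψ) (n := n) j
    have hx : σ (n + 3 * j) = τ (cla ψ j).2.1.2 := by simp only [σ, v0]
    have hz : σ (n + (3 * j + 1)) = τ (cla ψ j).1.2 := by simp only [σ, v1]
    have hy : σ (n + (3 * j + 2)) = τ (cla ψ j).2.2.2 := by simp only [σ, v2]
    have hC := hτ _ (cla_mem hj)
    obtain ⟨p1, p2⟩ := hpat _ (cla_mem hj)
    generalize var ψ n (n + (3 * j + r)) = u at *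
    obtain ⟨s, hs⟩ : ∃ s, s ≠ σ u := ⟨!σ u, by simp⟩
    have hk := fun g hg => kind_cl (ψ := ψ) (n := n) j g hg
    generalize hb : (cla ψ j).1.1 = b at *
    obtain ⟨-, -, f0, f6, f3, g1, g4, g7, w1, w2, w3, w6, w5, w4, w3'⟩ := pat_facts b s
    have cor : ∀ g ≤ 9, Rch ψ n σ (3 * u + 1) 3 (3 * n + 9 * j + g) (row s 3) :=
      fun g hg => corridor hv hs (by omega) (by omega)
    have e : 3 * (n + (3 * j + r)) + 2 = 3 * n + 9 * j + 3 * r + 1 + 1 := by omega
    rw [e]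
    have last : Rch ψ n σ (3 * u + 1) 3 (3 * n + 9 * j + 3 * r + 1) (row s 1) →
        Rch ψ n σ (3 * u + 1) 3 (3 * n + 9 * j + 3 * r + 1 + 1) 3 := by
      intro a
      refine a.fwd (by omega) ?_ (ne0 _ (by omega))
      rw [add_assoc _ (3 * r) 1, hk _ (by omega)]
      interval_cases r
      · exact g1
      · exact g4
      · exact g7
    have hlane : row s 1 ≠ xP ((3 * n + 9 * j + 3 * r + 1) % 3)
        (σ ((3 * n + 9 * j + 3 * r + 1) / 3)) :=
      ne1 _ (by rwa [show (3 * n + 9 * j + 3 * r + 1) / 3 = n + (3 * j + r) by omega, hσi])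
    refine last ?_
    by_cases hp : r = 1 ∧ s = b
    · obtain ⟨rfl, rfl⟩ := hp
      have fin : Rch ψ n σ (3 * u + 1) 3 (3 * n + 9 * j + 3) (row s 2) →
          Rch ψ n σ (3 * u + 1) 3 (3 * n + 9 * j + 3 * 1 + 1) (row s 1) := fun a =>
        a.fwd (by omega) (by rw [hk 3 (by omega)]; exact w3) hlane
      refine fin ?_
      have hC' : s ≠ σ (n + 3 * j) ∨ s ≠ σ (n + (3 * j + 2)) := by
        rw [hx, hy]
        rw [← hσi, hz] at hs
        rw [p2] at hC
        revert hs hC p1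
        cases s <;> cases τ (cla ψ j).1.2 <;> cases τ (cla ψ j).2.1.2 <;>
          cases τ (cla ψ j).2.2.2 <;> cases (cla ψ j).2.1.1 <;> simp
      rcases hC' with c | c
      · have a1 := (cor 0 (by omega)).fwd (by omega) (by rw [hk 0 (by omega)]; exact f0)
          (ne1 _ (by rwa [show (3 * n + 9 * j + 0 + 1) / 3 = n + 3 * j by omega]))
        have a2 := Rch.fwd (t := 3 * n + 9 * j + 1) a1 (by omega)
          (by rw [hk 1 (by omega)]; exact w1) (ne2 _ _ _)
        exact Rch.fwd (t := 3 * n + 9 * j + 2) a2 (by omega)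
          (by rw [hk 2 (by omega)]; exact w2) (ne2 _ _ _)
      · have a1 := (cor 6 (by omega)).fwd (by omega) (by rw [hk 6 (by omega)]; exact f6)
          (ne1 _ (by rwa [show (3 * n + 9 * j + 6 + 1) / 3 = n + (3 * j + 2) by omega]))
        have a2 := a1.bwd (by omega) (by rw [hk 6 (by omega)]; exact w6) (ne2 _ _ _)
        have a3 := Rch.bwd (t := 3 * n + 9 * j + 5) a2 (by omega)
          (by rw [hk 5 (by omega)]; exact w5) (ne2 _ _ _)
        have a4 := Rch.bwd (t := 3 * n + 9 * j + 4) a3 (by omega)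
          (by rw [hk 4 (by omega)]; exact w4) (ne2 _ _ _)
        exact Rch.bwd (t := 3 * n + 9 * j + 3) a4 (by omega)
          (by rw [hk 3 (by omega)]; exact w3') (ne2 _ _ _)
    · refine (cor (3 * r) (by omega)).fwd (by omega) ?_ hlane
      rw [hk _ (by omega)]
      interval_cases r
      · exact f0
      · exact f3 fun c => hp ⟨rfl, c⟩
      · exact f6
  · refine ⟨[v], ⟨rfl, rfl, by simp, by simp⟩, ?_⟩
    have : v ∉ cpath ψ n σ := by
      rw [show v = 7 * (v / 7) + v % 7 by omega]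
      refine not_mem_cpath (by omega) fun c => ?_
      simp only [forb, Bool.or_eq_true, Bool.not_eq_true', beq_iff_eq] at hf
      rcases hf with (hf | rfl) | rfl
      · rw [c, (row_ne _ (by omega) true _).2.2.2.2.2.2.2.2] at hf
        simp at hf
      · have := hσ 0 (by omega)
        norm_num [this, h0, xP, row] at c
      · have := hσ 1 (by omega)
        norm_num [this, h1, xP, row] at c
    simpa using this

end Pool.Agent.Lib.MP_f73e8c_lc.Star
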