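import Pool.Agent.Lib.MP_f73e8c_lc.Star.Table

/-!
The star instance attached to a formula; shape, running time and soundness.
-/

set_option autoImplicit false

namespace Pool.Agent.Lib.MP_f73e8c_lc.Star

open Pool.Agent.Lib.MP_f73e8c_lc Pool.Agent.Shared.CookLevin Pool.Agent.Shared.PolyTime

def cla (ψ : E3 ℕ) (j : ℕ) : (Bool × ℕ) × (Bool × ℕ) × (Bool × ℕ) :=
  ψ.getD j ((true, 0), (true, 0), (true, 0))

def kind (ψ : E3 ℕ) (n t : ℕ) : ℕ :=
  if t < 3 * n then t % 3 else K (cla ψ ((t - 3 * n) / 9)).1.1 ((t - 3 * n) % 9)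

/-- the variable of block `d` -/
def var (ψ : E3 ℕ) (n d : ℕ) : ℕ :=
  if d < n then d else if (d - n) % 3 = 0 then (cla ψ ((d - n) / 3)).2.1.2
  else if (d - n) % 3 = 1 then (cla ψ ((d - n) / 3)).1.2 else (cla ψ ((d - n) / 3)).2.2.2

/-- last level -/
def top (ψ : E3 ℕ) (n : ℕ) : ℕ := 3 * n + 9 * ψ.length

def arcs (ψ : E3 ℕ) (n : ℕ) : List (ℕ × ℕ) :=
  (List.range (top ψ n)).flatMap fun t => (pat (kind ψ n t)).map (arcOf t)

def forb (v : ℕ) : Bool := !allowed (v / 7 % 3) (v % 7) || v == 9 || v == 32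

def leaves (ψ : E3 ℕ) (n : ℕ) : List (ℕ × ℕ) :=
  ((List.range (3 * ψ.length)).map fun i =>
    (7 * (3 * var ψ n (n + i) + 1) + 3, 7 * (3 * (n + i) + 2) + 3)) ++
  ((List.range (7 * (top ψ n + 1))).filter forb).map fun v => (v, v)

def sinst (ψ : E3 ℕ) (n : ℕ) : Inst :=
  (List.range (7 * (top ψ n + 1)), arcs ψ n, (3, 7 * top ψ n + 3) :: leaves ψ n,
    starF (leaves ψ n).length)

theorem sinst_pt {α : Type} [N487b59b3 α] {ψ : α → E3 ℕ} {n : α → ℕ} (hψ : PT ψ) (hn : PT n)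
    (hb : PB n) : PT (fun a => sinst (ψ a) (n a)) := by
  have h1 : PT (fun a => leaves (ψ a) (n a)) := by
    unfold leaves var cla top forb allowed
    fun_prop
  have h2 : PT (fun a => arcs (ψ a) (n a)) := by
    unfold arcs kind cla top pat K arcOf
    fun_prop
  unfold sinst starF top
  fun_prop

variable {ψ : E3 ℕ} {n : ℕ}

theorem kind_lt (t : ℕ) : kind ψ n t < 21 := by
  unfold kind K
  split_ifs
  · omega
  · cases (cla ψ ((t - 3 * n) / 9)).1.1 <;> simp only [cond_true, cond_false] <;> omega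

theorem kind_mod (t : ℕ) : kind ψ n t % 3 = t % 3 := by
  unfold kind K
  split_ifs
  · omega
  · cases (cla ψ ((t - 3 * n) / 9)).1.1 <;> simp only [cond_true, cond_false] <;> omega

theorem kind_cl (j g : ℕ) (hg : g < 9) : kind ψ n (3 * n + 9 * j + g) = K (cla ψ j).1.1 g := by
  unfold kind
  rw [if_neg (by omega), show (3 * n + 9 * j + g - 3 * n) / 9 = j by omega,
    show (3 * n + 9 * j + g - 3 * n) % 9 = g by omega]

theorem kind_lo {t : ℕ} (h : t < 3 * n) : kind ψ n t = t % 3 := by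
  unfold kind
  rw [if_pos h]

theorem split_level (n t : ℕ) : t < 3 * n ∨ ∃ j g, g < 9 ∧ t = 3 * n + 9 * j + g := by
  by_cases h : t < 3 * n
  · exact Or.inl h
  · exact Or.inr ⟨(t - 3 * n) / 9, (t - 3 * n) % 9, by omega, by omega⟩

theorem K_val (b : Bool) (g : ℕ) : (b = true ∧ K b g = 3 + g) ∨ (b = false ∧ K b g = 12 + g) := by
  cases b
  · right; exact ⟨rfl, by simp only [K, cond_false]; omega⟩
  · left; exact ⟨rfl, rfl⟩

theorem kind_nxt (t : ℕ) : kind ψ n (t + 1) ∈ nxt (kind ψ n t) := by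
  rcases split_level n t with h | ⟨j, g, hg, rfl⟩
  · rw [kind_lo h]
    by_cases h2 : t + 1 < 3 * n
    · rw [kind_lo h2]
      unfold nxt
      split_ifs <;> simp <;> omega
    · have e : t + 1 = 3 * n + 9 * 0 + 0 := by omega
      rw [e, kind_cl 0 0 (by omega), show t % 3 = 2 by omega]
      rcases K_val (cla ψ 0).1.1 0 with ⟨_, h3⟩ | ⟨_, h3⟩ <;> rw [h3] <;> simp [nxt]
  · rw [kind_cl j g hg]
    by_cases h2 : g = 8
    · subst h2
      rw [show 3 * n + 9 * j + 8 + 1 = 3 * n + 9 * (j + 1) + 0 by omega, kind_cl _ 0 (by omega)]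
      rcases K_val (cla ψ j).1.1 8 with ⟨_, h3⟩ | ⟨_, h3⟩ <;>
        rcases K_val (cla ψ (j + 1)).1.1 0 with ⟨_, h4⟩ | ⟨_, h4⟩ <;> rw [h3, h4] <;> simp [nxt]
    · rw [add_assoc _ g 1, kind_cl j (g + 1) (by omega)]
      rcases K_val (cla ψ j).1.1 g with ⟨h0, h3⟩ | ⟨h0, h3⟩ <;>
        rcases K_val (cla ψ j).1.1 (g + 1) with ⟨h1, h4⟩ | ⟨h1, h4⟩
      · rw [h3, h4]
        unfold nxt
        rw [if_neg (by omega), if_neg (by omega)]
        simp [add_assoc]
      · rw [h0] at h1; simp at h1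
      · rw [h0] at h1; simp at h1
      · rw [h3, h4]
        unfold nxt
        rw [if_neg (by omega), if_neg (by omega)]
        simp [add_assoc]

theorem mem_arcs {e : ℕ × ℕ} :
    e ∈ arcs ψ n ↔ ∃ t < top ψ n, ∃ a ∈ pat (kind ψ n t), e = arcOf t a := by
  simp [arcs, eq_comm]

theorem planar_sinst : Planar (sinst ψ n) :=
  planar_strip _ _ _ _ (fun t => pat (kind ψ n t))
    (fun _ he => let ⟨t, _, h⟩ := mem_arcs.1 he; ⟨t, h⟩)
    (fun t => pat_lt _ (kind_lt t)) (fun t => pat_cross _ (kind_lt t))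

theorem cla_mem {j : ℕ} (hj : j < ψ.length) : cla ψ j ∈ ψ := by
  unfold cla
  rw [List.getD_eq_getElem _ _ hj]
  exact List.getElem_mem hj

theorem var_lt (h : Good ψ n) {i : ℕ} (hi : i < 3 * ψ.length) : var ψ n (n + i) < n := by
  unfold var
  rw [if_neg (by omega), Nat.add_sub_cancel_left]
  have := h.lt _ (cla_mem (j := i / 3) (by omega))
  split_ifs <;> omega

theorem mem_leaves {t : ℕ × ℕ} : t ∈ leaves ψ n ↔
    (∃ i < 3 * ψ.length, t = (7 * (3 * var ψ n (n + i) + 1) + 3, 7 * (3 * (n + i) + 2) + 3)) ∨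
      ∃ v < 7 * (top ψ n + 1), forb v = true ∧ t = (v, v) := by
  simp only [leaves, List.mem_append, List.mem_map, List.mem_range, List.mem_filter, and_assoc,
    @eq_comm _ t]

theorem wellFormed_sinst (h : Good ψ n) : WellFormed (sinst ψ n) := by
  refine ⟨List.nodup_range, fun e he => ?_, fun t ht => ?_, fun f hf => ?_⟩
  · obtain ⟨t, ht, a, ha, rfl⟩ := mem_arcs.1 he
    have := pat_lt _ (kind_lt t) a ha
    simp only [sinst, List.mem_range, arcOf]
    cases a.2.2 <;> simp only [cond_true, cond_false] <;> omega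
  · simp only [sinst, List.mem_range]
    rcases List.mem_cons.1 ht with rfl | ht
    · simp only; omega
    · rcases mem_leaves.1 ht with ⟨i, hi, rfl⟩ | ⟨v, hv, _, rfl⟩
      · have := var_lt h hi
        simp only [top]
        omega
      · exact ⟨hv, hv⟩
  · obtain ⟨i, hi, rfl⟩ := List.mem_map.1 hf
    have := List.mem_range.1 hi
    simp only [sinst, List.length_cons]
    omega

/-- The centre path is the one given by its sides. -/
theorem centre (h : Good ψ n) {P : List ℕ} (hP : IsDipath (arcs ψ n) 3 (7 * top ψ n + 3) P)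
    (hf : ∀ v < 7 * (top ψ n + 1), forb v = true → v ∉ P) :
    ∃ σ : ℕ → Bool, σ 0 = true ∧ σ 1 = false ∧
      ∀ t ≤ top ψ n, 7 * t + xP (t % 3) (σ (t / 3)) ∈ P := by
  obtain ⟨h1, h2, h3, _⟩ := hP
  have hA : ∀ v ∈ P, v < 7 * (top ψ n + 1) → forb v = false := by
    intro v hv hlt
    cases hb : forb v
    · rfl
    · exact absurd hv (hf v hlt hb)
  have hal : ∀ v, forb v = false → allowed (v / 7 % 3) (v % 7) = true ∧ v ≠ 9 ∧ v ≠ 32 := by
    intro v hv
    simpa [forb, and_assoc] using hv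
  have harc : ∀ u v, (u, v) ∈ arcs ψ n → (u < 7 * (top ψ n + 1) → forb u = false) →
      (v < 7 * (top ψ n + 1) → forb v = false) →
      v / 7 = u / 7 + 1 ∧ (u / 7 % 3 = 1 → u % 7 = v % 7) := by
    intro u v he hu hv
    obtain ⟨t, ht, ⟨p, q, f⟩, ha, e⟩ := mem_arcs.1 he
    have h7 := pat_lt _ (kind_lt t) _ ha
    have hp := pat_allowed _ (kind_lt t) _ ha
    have hk := kind_mod (ψ := ψ) (n := n) t
    simp only at h7 hp
    have e1 : (7 * t + p) / 7 % 3 = kind ψ n t % 3 := by omega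
    have e2 : (7 * t + p) % 7 = p := by omega
    have e3 : (7 * (t + 1) + q) / 7 % 3 = (kind ψ n t + 1) % 3 := by omega
    have e4 : (7 * (t + 1) + q) % 7 = q := by omega
    cases f <;> simp only [arcOf, cond_true, cond_false, Prod.mk.injEq] at e <;>
      obtain ⟨rfl, rfl⟩ := e
    · have a1 := (hal _ (hu (by omega))).1
      have a2 := (hal _ (hv (by omega))).1
      rw [e1, e2] at a2
      rw [e3, e4] at a1
      exact absurd (hp a2 a1).1 (by simp)
    · have a1 := (hal _ (hu (by omega))).1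
      have a2 := (hal _ (hv (by omega))).1
      rw [e1, e2] at a1
      rw [e3, e4] at a2
      have := (hp a1 a2).2
      omega
  obtain ⟨y, -, -, g3, g4⟩ := chain_level (fun v => v < 7 * (top ψ n + 1) → forb v = false)
    (fun u v he hu hv => (harc u v he hu hv).1) P _ _ h1 h2 h3 hA
  have e0 : (7 * top ψ n + 3) / 7 = top ψ n := by omega
  rw [e0] at g3 g4
  have g5 : ∀ t ≤ top ψ n, allowed (t % 3) (y t % 7) = true ∧ y t ≠ 9 ∧ y t ≠ 32 := by
    intro t ht
    obtain ⟨a, b⟩ := g3 t (by omega) ht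
    have := hal _ (hA _ a (by omega))
    rwa [b] at this
  have g6 : ∀ t ≤ top ψ n, t % 3 ≠ 0 → y t % 7 = 2 ∨ y t % 7 = 4 := by
    intro t ht h0
    simpa [allowed, h0] using (g5 t ht).1
  have h2n := h.two
  have ht4 : 4 ≤ top ψ n := by unfold top; omega
  refine ⟨fun d => decide (y (3 * d + 1) % 7 = 4), ?_, ?_, fun t ht => ?_⟩
  · have a := g6 1 (by omega) (by omega)
    have b := (g5 1 (by omega)).2.1
    have c := (g3 1 (by omega) (by omega)).2
    simp only [mul_zero, zero_add, decide_eq_true_eq]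
    omega
  · have a := g6 4 (by omega) (by omega)
    have b := (g5 4 (by omega)).2.2
    have c := (g3 4 (by omega) (by omega)).2
    show decide (y 4 % 7 = 4) = false
    simp only [decide_eq_false_iff_not]
    omega
  · obtain ⟨a, b⟩ := g3 t (by omega) ht
    have key : xP (t % 3) (decide (y (3 * (t / 3) + 1) % 7 = 4)) = y t % 7 := by
      by_cases h0 : t % 3 = 0
      · have := (g5 t ht).1
        simp only [allowed, h0, if_true, beq_iff_eq] at this
        simp [xP, h0, this]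
      · have e : y (3 * (t / 3) + 1) % 7 = y t % 7 := by
          by_cases h1 : t % 3 = 1
          · rw [show 3 * (t / 3) + 1 = t by omega]
          · obtain ⟨s, rfl⟩ : ∃ s, t = s + 1 := ⟨t - 1, by omega⟩
            rw [show 3 * ((s + 1) / 3) + 1 = s by omega]
            have c := g3 s (by omega) (by omega)
            exact (harc _ _ (g4 s (by omega) (by omega)) (hA _ c.1) (hA _ a)).2 (by omega)
        rw [e]
        rcases g6 t ht h0 with c | c <;> simp [xP, h0, c, row]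
    rw [key, show 7 * t + y t % 7 = y t by omega]
    exact a

/-- closedness of the pocket around level `t` -/
def clo (ψ : E3 ℕ) (n : ℕ) (σ : ℕ → Bool) (t : ℕ) : Bool :=
  σ (n + 3 * ((t - 3 * n) / 9)) == (cla ψ ((t - 3 * n) / 9)).1.1 &&
    σ (n + 3 * ((t - 3 * n) / 9) + 2) == (cla ψ ((t - 3 * n) / 9)).1.1

theorem compat_level (σ : ℕ → Bool) (t : ℕ) : compat (kind ψ n t) (σ (t / 3)) (σ ((t + 1) / 3))
    (clo ψ n σ t) (clo ψ n σ (t + 1)) = true := by
  have hk := kind_mod (ψ := ψ) (n := n) t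
  simp only [compat, Bool.and_eq_true, Bool.or_eq_true, beq_iff_eq, decide_eq_true_eq,
    Bool.not_eq_true']
  refine ⟨⟨?_, ?_⟩, ?_⟩
  · by_cases h : t % 3 = 2
    · left; omega
    · right; rw [show (t + 1) / 3 = t / 3 by omega]
  · rcases split_level n t with h | ⟨j, g, hg, rfl⟩
    · rw [kind_lo h]; left; left; left; omega
    · rw [kind_cl j g hg]
      by_cases h2 : g = 8
      · left
        rcases K_val (cla ψ j).1.1 g with ⟨_, h3⟩ | ⟨_, h3⟩ <;> omega
      · right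
        unfold clo
        rw [show (3 * n + 9 * j + g + 1 - 3 * n) / 9 = (3 * n + 9 * j + g - 3 * n) / 9 by omega]
  · rcases split_level n t with h | ⟨j, g, hg, rfl⟩
    · rw [kind_lo h]; left; left; left; omega
    · rw [kind_cl j g hg]
      have e : decide (K (cla ψ j).1.1 g < 12) = (cla ψ j).1.1 := by
        rcases K_val (cla ψ j).1.1 g with ⟨h0, h3⟩ | ⟨h0, h3⟩ <;> rw [h3, h0] <;> simp <;> omega
      have e2 : (K (cla ψ j).1.1 g - 3) % 9 = g := by
        rcases K_val (cla ψ j).1.1 g with ⟨h0, h3⟩ | ⟨h0, h3⟩ <;> omega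
      rw [e, e2]
      cases hc : clo ψ n σ (3 * n + 9 * j + g)
      · left; left; right; rfl
      · unfold clo at hc
        rw [show (3 * n + 9 * j + g - 3 * n) / 9 = j by omega] at hc
        simp only [Bool.and_eq_true, beq_iff_eq] at hc
        by_cases h3 : g < 3
        · right; rw [show (3 * n + 9 * j + g) / 3 = n + 3 * j by omega]; exact hc.1
        · by_cases h6 : g < 6
          · left; right; omega
          · right; rw [show (3 * n + 9 * j + g) / 3 = n + 3 * j + 2 by omega]; exact hc.2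

theorem leaf_inv {P : List ℕ} {σ : ℕ → Bool}
    (hσ : ∀ t ≤ top ψ n, 7 * t + xP (t % 3) (σ (t / 3)) ∈ P) (s : Bool) (u v : ℕ)
    (he : (u, v) ∈ arcs ψ n) (hu : u ∉ P) (hv : v ∉ P)
    (h : ok s (kind ψ n (u / 7)) (u % 7) (σ (u / 7 / 3)) (clo ψ n σ (u / 7)) = true) :
    ok s (kind ψ n (v / 7)) (v % 7) (σ (v / 7 / 3)) (clo ψ n σ (v / 7)) = true := by
  obtain ⟨t, ht, ⟨p, q, f⟩, ha, e⟩ := mem_arcs.1 he
  have h7 := pat_lt _ (kind_lt t) _ ha
  have hk := kind_mod (ψ := ψ) (n := n) t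
  have hp := pat_ok _ (kind_lt t) _ (kind_nxt t) _ ha s _ _ _ _ (compat_level σ t)
  simp only at h7 hp
  have e1 : (7 * t + p) / 7 = t := by omega
  have e2 : (7 * t + p) % 7 = p := by omega
  have e3 : (7 * (t + 1) + q) / 7 = t + 1 := by omega
  have e4 : (7 * (t + 1) + q) % 7 = q := by omega
  have a1 := hσ t ht.le
  have a2 := hσ (t + 1) ht
  rw [← hk] at a1
  rw [show (t + 1) % 3 = (kind ψ n t + 1) % 3 by omega] at a2
  cases f <;> simp only [arcOf, cond_true, cond_false, Prod.mk.injEq] at e <;>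
    obtain ⟨rfl, rfl⟩ := e
  · rw [e3, e4] at h
    rw [e1, e2]
    exact (hp (fun c => hv (c ▸ a1)) (fun c => hu (c ▸ a2))).2 rfl h
  · rw [e1, e2] at h
    rw [e3, e4]
    exact (hp (fun c => hu (c ▸ a1)) (fun c => hv (c ▸ a2))).1 rfl h

theorem var_cl (j : ℕ) : var ψ n (n + 3 * j) = (cla ψ j).2.1.2 ∧
    var ψ n (n + (3 * j + 1)) = (cla ψ j).1.2 ∧ var ψ n (n + (3 * j + 2)) = (cla ψ j).2.2.2 := by
  unfold var
  refine ⟨?_, ?_, ?_⟩
  · rw [if_neg (by omega), Nat.add_sub_cancel_left, if_pos (by omega),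
      show 3 * j / 3 = j by omega]
  · rw [if_neg (by omega), Nat.add_sub_cancel_left, if_neg (by omega), if_pos (by omega),
      show (3 * j + 1) / 3 = j by omega]
  · rw [if_neg (by omega), Nat.add_sub_cancel_left, if_neg (by omega), if_neg (by omega),
      show (3 * j + 2) / 3 = j by omega]

theorem sound (h : Good ψ n) (hpat : ∀ C ∈ ψ, C.1.1 = !C.2.1.1 ∧ C.2.2.1 = C.2.1.1)
    (hs : Solvable (sinst ψ n)) : ∃ τ : ℕ → Bool, τ 0 = true ∧ τ 1 = false ∧
      ∀ C ∈ ψ, τ C.1.2 = C.1.1 ∨ τ C.2.1.2 = C.2.1.1 ∨ τ C.2.2.2 = C.2.2.1 := by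
  obtain ⟨P, hP, hQ⟩ := (solvable_star _ _ _ _).1 hs
  obtain ⟨σ, h0, h1, hσ⟩ := centre h hP (by
    intro v hv hf hm
    obtain ⟨Q, ⟨q1, _⟩, q2⟩ := hQ (v, v) (mem_leaves.2 (Or.inr ⟨v, hv, hf, rfl⟩))
    exact q2 hm (List.mem_of_mem_head? q1))
  have key : ∀ j < ψ.length, ∀ r < 3, σ (n + (3 * j + r)) = σ (var ψ n (n + (3 * j + r))) ∧
      (r = 1 → (cla ψ j).1.1 = (!σ (var ψ n (n + (3 * j + r)))) →
        ¬ (σ (n + 3 * j) = (cla ψ j).1.1 ∧ σ (n + 3 * j + 2) = (cla ψ j).1.1)) := by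
    intro j hj r hr
    have hv := var_lt h (i := 3 * j + r) (by omega)
    obtain ⟨Q, ⟨q1, q2, q3, _⟩, q4⟩ := hQ _ (mem_leaves.2 (Or.inl ⟨3 * j + r, by omega, rfl⟩))
    generalize var ψ n (n + (3 * j + r)) = u at *
    have := chain_inv (fun v => v ∉ P) (fun v => ok (!σ u) (kind ψ n (v / 7)) (v % 7)
      (σ (v / 7 / 3)) (clo ψ n σ (v / 7)) = true) (leaf_inv hσ _) Q _ _ q1 q2 q3
      (fun v hv hm => q4 hm hv) (by
        simp only
        rw [show (7 * (3 * u + 1) + 3) / 7 = 3 * u + 1 by omega,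
          show (7 * (3 * u + 1) + 3) % 7 = 3 by omega, kind_lo (by omega),
          show (3 * u + 1) % 3 = 1 by omega, show (3 * u + 1) / 3 = u by omega]
        exact ok_start _ _)
    simp only at this
    rw [show (7 * (3 * (n + (3 * j + r)) + 2) + 3) / 7 = 3 * n + 9 * j + (3 * r + 2) by omega,
      show (7 * (3 * (n + (3 * j + r)) + 2) + 3) % 7 = 3 by omega,
      show (3 * n + 9 * j + (3 * r + 2)) / 3 = n + (3 * j + r) by omega] at this
    have hK := K_val (cla ψ j).1.1 (3 * r + 2)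
    have h2 := ok_end _ (kind_lt _) (by rw [kind_cl j _ (by omega)]; omega) _ _ _ this
    rw [kind_cl j _ (by omega)] at h2
    refine ⟨by simpa using h2.1, fun hr1 hb hc => ?_⟩
    have h3 := h2.2 (by omega) (by
      rw [← hb]
      rcases hK with ⟨a, b⟩ | ⟨a, b⟩ <;> rw [b, a] <;> simp <;> omega)
    unfold clo at h3
    rw [show (3 * n + 9 * j + (3 * r + 2) - 3 * n) / 9 = j by omega, hc.1, hc.2] at h3
    simp at h3
  refine ⟨σ, h0, h1, fun C hC => ?_⟩
  obtain ⟨j, hj, rfl⟩ := List.getElem_of_mem hC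
  have e : cla ψ j = ψ[j] := List.getD_eq_getElem _ _ hj
  obtain ⟨v0, v1, v2⟩ := var_cl (ψ := ψ) (n := n) j
  have k0 := (key j hj 0 (by omega)).1
  have k1 := (key j hj 1 (by omega)).2 rfl
  have k2 := (key j hj 2 (by omega)).1
  rw [add_zero, v0] at k0
  rw [v1] at k1
  rw [v2, ← add_assoc] at k2
  rw [k0, k2, e] at k1
  obtain ⟨p1, p2⟩ := hpat _ hC
  rw [p1] at k1
  rw [p1, p2]
  revert k1
  cases σ ψ[j].1.2 <;> cases σ ψ[j].2.1.2 <;> cases σ ψ[j].2.2.2 <;> cases ψ[j].2.1.1 <;> simp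

end Pool.Agent.Lib.MP_f73e8c_lc.Star
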