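import Pool.Agent.Lib.MP_f73e8c_lc.Star.Basic

/-!
The local patterns of the reduction and their finite checks.
-/

set_option autoImplicit false
set_option synthInstance.maxSize 100000

namespace Pool.Agent.Lib.MP_f73e8c_lc.Star

def base0 : List (ℕ × ℕ × Bool) := [(6, 6, true), (0, 0, true), (3, 4, true), (3, 2, true)]
def base1 : List (ℕ × ℕ × Bool) := [(6, 6, true), (0, 0, true), (4, 4, true), (2, 2, true)]
def base2 : List (ℕ × ℕ × Bool) := [(6, 6, true), (0, 0, true), (4, 3, true), (2, 3, true)]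

/-- the nine gaps of a clause whose pocket is on top -/
def topc : List (List (ℕ × ℕ × Bool)) :=
  [base0 ++ [(6, 4, true), (0, 2, true)],
   base1 ++ [(4, 3, true), (2, 3, true), (4, 5, true)],
   base2 ++ [(5, 5, true)],
   base0 ++ [(0, 2, true), (5, 4, true), (5, 5, false)],
   base1 ++ [(4, 3, true), (2, 3, true), (5, 5, false)],
   base2 ++ [(5, 5, false)],
   base0 ++ [(6, 4, true), (0, 2, true), (5, 4, false)],
   base1 ++ [(4, 3, true), (2, 3, true)],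
   base2]

def tbl : List (List (ℕ × ℕ × Bool)) :=
  [base0, base1 ++ [(3, 4, true), (3, 2, true)], base2 ++ [(4, 6, true), (2, 0, true)]] ++ topc ++
    topc.map fun l => l.map fun a => (6 - a.1, 6 - a.2.1, a.2.2)

def pat (κ : ℕ) : List (ℕ × ℕ × Bool) := tbl.getD κ []

def row (s : Bool) (k : ℕ) : ℕ := bif s then 3 + k else 3 - k

/-- position of the centre path -/
def xP (r : ℕ) (σ : Bool) : ℕ := if r = 0 then 3 else row σ 1

/-- positions that the centre path may use -/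
def allowed (r p : ℕ) : Bool := if r = 0 then p == 3 else p == 2 || p == 4

def nxt (κ : ℕ) : List ℕ :=
  if κ = 2 then [0, 3, 12] else if κ = 11 ∨ κ = 20 then [3, 12] else [κ + 1]

/-- vertices that a leaf travelling on side `s` can reach -/
def ok (s : Bool) (κ p : ℕ) (σ c : Bool) : Bool :=
  ((bif s then decide (3 < p) else decide (p < 3)) ||
    (p == 3 && σ != s && (κ == 1 || (decide (3 ≤ κ) && κ % 3 == 2)))) &&
  !(decide (3 ≤ κ) && (decide (κ < 12) == s) && c &&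
    (p == row s 2 || (((κ - 3) % 9 == 4 || (κ - 3) % 9 == 5) && (p == row s 1 || p == 3))))

def compat (κ : ℕ) (σ σ' c c' : Bool) : Bool :=
  (κ % 3 == 2 || σ' == σ) && (decide (κ < 3) || κ == 11 || κ == 20 || c' == c) &&
    (decide (κ < 3) || !c || (decide (3 ≤ (κ - 3) % 9) && decide ((κ - 3) % 9 < 6)) ||
      σ == decide (κ < 12))

theorem pat_lt : ∀ κ < 21, ∀ a ∈ pat κ, a.1 < 7 ∧ a.2.1 < 7 := by decide +kernel

theorem pat_cross : ∀ κ < 21, ∀ a ∈ pat κ, ∀ b ∈ pat κ, (a.1 < b.1 → a.2.1 ≤ b.2.1) ∧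
    (a.1 = b.1 → a.2.1 = b.2.1 → a.2.2 = b.2.2) := by decide +kernel

theorem pat_allowed : ∀ κ < 21, ∀ a ∈ pat κ, allowed (κ % 3) a.1 = true →
    allowed ((κ + 1) % 3) a.2.1 = true → a.2.2 = true ∧ (κ % 3 = 1 → a.1 = a.2.1) := by
  decide +kernel

theorem pat_ok : ∀ κ < 21, ∀ κ' ∈ nxt κ, ∀ a ∈ pat κ, ∀ s σ σ' c c' : Bool,
    compat κ σ σ' c c' = true → a.1 ≠ xP (κ % 3) σ → a.2.1 ≠ xP ((κ + 1) % 3) σ' →
      (a.2.2 = true → ok s κ a.1 σ c = true → ok s κ' a.2.1 σ' c' = true) ∧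
      (a.2.2 = false → ok s κ' a.2.1 σ' c' = true → ok s κ a.1 σ c = true) := by
  decide +kernel

theorem ok_start : ∀ σ c : Bool, ok (!σ) 1 3 σ c = true := by decide +kernel

theorem ok_end : ∀ κ < 21, 3 ≤ κ → ∀ s σ c : Bool, ok s κ 3 σ c = true →
    σ = !s ∧ ((κ - 3) % 9 = 5 → decide (κ < 12) = s → c = false) := by decide +kernel

theorem pat_centre : ∀ κ < 21, ∀ σ σ' : Bool, (κ % 3 ≠ 1 ∨ σ' = σ) →
    (xP (κ % 3) σ, xP ((κ + 1) % 3) σ', true) ∈ pat κ := by decide +kernel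

theorem pat_corr : ∀ κ < 21, ∀ s : Bool, (row s 3, row s 3, true) ∈ pat κ := by decide +kernel

/-- the kind of gap `g` of a clause with sign `b` -/
def K (b : Bool) (g : ℕ) : ℕ := 3 + g + (bif b then 0 else 9)

theorem pat_facts : ∀ b s : Bool, (3, row s 1, true) ∈ pat 1 ∧ (row s 1, row s 3, true) ∈ pat 2 ∧
    (row s 3, row s 1, true) ∈ pat (K b 0) ∧ (row s 3, row s 1, true) ∈ pat (K b 6) ∧
    (s ≠ b → (row s 3, row s 1, true) ∈ pat (K b 3)) ∧
    (row s 1, 3, true) ∈ pat (K b 1) ∧ (row s 1, 3, true) ∈ pat (K b 4) ∧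
    (row s 1, 3, true) ∈ pat (K b 7) ∧
    (row b 1, row b 2, true) ∈ pat (K b 1) ∧ (row b 2, row b 2, true) ∈ pat (K b 2) ∧
    (row b 2, row b 1, true) ∈ pat (K b 3) ∧ (row b 2, row b 1, false) ∈ pat (K b 6) ∧
    (row b 2, row b 2, false) ∈ pat (K b 5) ∧ (row b 2, row b 2, false) ∈ pat (K b 4) ∧
    (row b 2, row b 2, false) ∈ pat (K b 3) := by decide +kernel

theorem row_ne : ∀ r < 3, ∀ s σ : Bool, row s 3 ≠ xP r σ ∧ row s 2 ≠ xP r σ ∧
    (s ≠ σ → row s 1 ≠ xP r σ) ∧ (r ≠ 0 → 3 ≠ xP r σ) ∧ xP r σ < 7 ∧ row s 1 < 7 ∧ row s 2 < 7 ∧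
    row s 3 < 7 ∧ allowed r (xP r σ) = true := by decide +kernel

end Pool.Agent.Lib.MP_f73e8c_lc.Star
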